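import Mathlib

set_option autoImplicit false

namespace Pool.Agent.H.MP_fbc045_an

open Real Finset MeasureTheory

noncomputable def ep (θ : ℝ) (n : ℕ) : ℝ := θ / (n + 2) ^ 2

noncomputable def pp (θ : ℝ) (n : ℕ) (d : ℤ) : ℝ :=
  if d = 0 ∨ d = 8 then θ else if d = 2 ∨ d = 6 then (1 - 2 * θ - 5 * ep θ n) / 2 else ep θ n

noncomputable def w (θ : ℝ) : ℕ → ℤ → ℝ
  | 0, _ => 1
  | n + 1, a => pp θ n (a % 9) * w θ n (a / 9)

noncomputable def G (θ : ℝ) : ℕ → ℤ → ℝ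
  | 0, a => a
  | n + 1, a => G θ n (a / 9) + (∑ d ∈ range (a % 9).toNat, pp θ n d) * w θ n (a / 9)

noncomputable def h (θ x : ℝ) : ℝ := sSup {s | ∃ n a, G θ n a ≤ x ∧ s = a / 9 ^ n}

variable {θ : ℝ}

theorem Gw (n : ℕ) : ∀ a, G θ n (a + 1) = G θ n a + w θ n a := by
  induction n with
  | zero => intro a; simp [G, w]
  | succ n ih =>
    intro a
    by_cases c : a % 9 = 8
    · rw [G, G, w, show (a + 1) / 9 = a / 9 + 1 by omega, show (a + 1) % 9 = 0 by omega, c, ih]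
      simp [sum_range_succ, pp]; ring
    · rw [G, G, w, show (a + 1) / 9 = a / 9 by omega,
        show ((a + 1) % 9).toNat = (a % 9).toNat + 1 by omega, sum_range_succ,
        show (((a % 9).toNat : ℕ) : ℤ) = a % 9 by omega]
      ring

theorem G9 (n : ℕ) (a : ℤ) : G θ (n + 1) (9 * a) = G θ n a := by
  rw [G, show 9 * a / 9 = a by omega, show 9 * a % 9 = 0 by omega]; simp

theorem Gp (n k : ℕ) (a : ℤ) : G θ (n + k) (9 ^ k * a) = G θ n a := by
  induction k with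
  | zero => simp
  | succ k ih => rw [pow_succ', mul_assoc, ← add_assoc, G9, ih]

theorem Gi (n : ℕ) (a : ℤ) : G θ n (9 ^ n * a) = a := by simpa [G] using Gp (θ := θ) 0 n a

theorem wsym (n : ℕ) : ∀ a, w θ n (-1 - a) = w θ n a := by
  induction n with
  | zero => intro a; rfl
  | succ n ih =>
    intro a
    rw [w, w, show (-1 - a) / 9 = -1 - a / 9 by omega, ih, show (-1 - a) % 9 = 8 - a % 9 by omega]
    unfold pp
    simp only [show (8 - a % 9 = 0 ∨ 8 - a % 9 = 8) ↔ (a % 9 = 0 ∨ a % 9 = 8) by omega,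
      show (8 - a % 9 = 2 ∨ 8 - a % 9 = 6) ↔ (a % 9 = 2 ∨ a % 9 = 6) by omega]

theorem Gneg (n : ℕ) (a : ℤ) : G θ n (-a) = -G θ n a := by
  have s : ∀ a : ℤ, G θ n (-a) = G θ n (-(a + 1)) + w θ n a := fun a => by
    rw [← wsym, show -(a + 1) = -1 - a by ring, ← Gw]; congr 1; ring
  induction a using Int.induction_on with
  | zero => have := Gi (θ := θ) n 0; simp at this; simp [this]
  | succ i ih => have := s i; rw [Gw]; linarith
  | pred i ih =>
    have := s (-i - 1)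
    have := Gw (θ := θ) n (-i - 1)
    rw [sub_add_cancel] at *
    linarith

section
variable (θ0 : 0 < θ) (θ1 : θ ≤ 1 / 100)
include θ0

theorem ep0 (n : ℕ) : 0 < ep θ n := by unfold ep; positivity

theorem epa (n : ℕ) : ep θ (n + 1) ≤ ep θ n := by
  unfold ep; gcongr; linarith

theorem ep1 (n : ℕ) : ep θ n ≤ θ :=
  div_le_self θ0.le (one_le_pow₀ (by linarith [Nat.cast_nonneg (α := ℝ) n]))

include θ1

theorem ppb (n : ℕ) (d : ℤ) : ep θ n ≤ pp θ n d ∧ pp θ n d ≤ 1 / 2 := by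
  have := ep0 θ0 n
  have := ep1 θ0 n
  unfold pp
  split_ifs <;> constructor <;> linarith

theorem wb (n : ℕ) : ∀ a, 0 < w θ n a ∧ w θ n a ≤ (1 / 2) ^ n := by
  induction n with
  | zero => intro a; simp [w]
  | succ n ih =>
    intro a
    have h1 := ppb θ0 θ1 n (a % 9)
    have h2 := ep0 θ0 n
    rw [w, pow_succ']
    exact ⟨mul_pos (by linarith) (ih _).1, mul_le_mul h1.2 (ih _).2 (ih _).1.le (by norm_num)⟩

theorem Gm (n : ℕ) : StrictMono (G θ n) :=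
  strictMono_int_of_lt_succ fun a => by rw [Gw]; linarith [(wb θ0 θ1 n a).1]

theorem Gj (n : ℕ) (a : ℤ) (j : ℕ) : G θ n (a + j) ≤ G θ n a + j * (1 / 2) ^ n := by
  induction j with
  | zero => simp
  | succ j ih => push_cast; rw [← add_assoc, Gw]; linarith [(wb θ0 θ1 n (a + j)).2]

theorem cmp (n m : ℕ) (a b : ℤ) : G θ n a ≤ G θ m b ↔ (a : ℝ) / 9 ^ n ≤ b / 9 ^ m := by
  rw [← Gp n m, ← Gp m n, add_comm m n, (Gm θ0 θ1 _).le_iff_le,
    div_le_div_iff₀ (by positivity) (by positivity), mul_comm (a : ℝ), mul_comm (b : ℝ)]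
  norm_cast

theorem hi {x : ℝ} {n : ℕ} {a : ℤ} (H : x ≤ G θ n a) : h θ x ≤ a / 9 ^ n :=
  csSup_le ⟨_, 0, ⌊x⌋, Int.floor_le x, rfl⟩ (by
    rintro _ ⟨m, b, h1, rfl⟩; exact (cmp θ0 θ1 _ _ _ _).1 (h1.trans H))

theorem lo {x : ℝ} {n : ℕ} {a : ℤ} (H : G θ n a ≤ x) : a / 9 ^ n ≤ h θ x :=
  le_csSup ⟨(⌈x⌉ : ℝ) / 9 ^ 0, by
    rintro _ ⟨m, b, h1, rfl⟩; exact (cmp θ0 θ1 _ _ _ _).1 (h1.trans (Int.le_ceil x))⟩ ⟨n, a, H, rfl⟩

theorem hG (n : ℕ) (a : ℤ) : h θ (G θ n a) = a / 9 ^ n :=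
  le_antisymm (hi θ0 θ1 le_rfl) (lo θ0 θ1 le_rfl)

theorem addr (x : ℝ) : ∃ a : ℕ → ℤ, (∀ n, G θ n (a n) ≤ x ∧ x < G θ n (a n + 1)) ∧
    ∀ n, a (n + 1) / 9 = a n := by
  have : ∀ n, ∃ a, G θ n a ≤ x ∧ x < G θ n (a + 1) := fun n => by
    obtain ⟨a, h1, h2⟩ := Int.exists_greatest_of_bdd (P := fun a => G θ n a ≤ x)
      ⟨9 ^ n * ⌈x⌉, fun z hz => (Gm θ0 θ1 n).le_iff_le.1 (by rw [Gi]; exact hz.trans (Int.le_ceil x))⟩
      ⟨9 ^ n * ⌊x⌋, by rw [Gi]; exact Int.floor_le x⟩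
    exact ⟨a, h1, not_le.1 fun h => by have := h2 _ h; omega⟩
  choose a ha using this
  refine ⟨a, ha, fun n => ?_⟩
  have h1 := (Gm θ0 θ1 _).lt_iff_lt.1 (((G9 n _).trans_le (ha n).1).trans_lt (ha (n + 1)).2)
  have h2 := (Gm θ0 θ1 _).lt_iff_lt.1 (((ha (n + 1)).1.trans_lt (ha n).2).trans_eq (G9 n _).symm)
  omega

theorem hm : StrictMono (h θ) := fun x y H => by
  obtain ⟨n, hn⟩ := exists_pow_lt_of_lt_one (x := (y - x) / 2) (y := 1 / 2) (by linarith) (by norm_num)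
  obtain ⟨a, h1, -⟩ := addr θ0 θ1 x
  have h2 := Gj θ0 θ1 n (a n) 2
  refine (hi θ0 θ1 (h1 n).2.le).trans_lt (lt_of_lt_of_le ?_
    (lo θ0 θ1 (h2.trans (by push_cast; linarith [h1 n]))))
  gcongr; omega

theorem hc : Continuous (h θ) := (hm θ0 θ1).monotone.continuous_of_denseRange <|
  Metric.denseRange_iff.2 fun s r r0 => by
    obtain ⟨n, hn⟩ := exists_pow_lt_of_lt_one (y := 1 / 9) r0 (by norm_num)
    refine ⟨G θ n ⌊9 ^ n * s⌋, lt_of_le_of_lt ?_ hn⟩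
    have h1 := Int.floor_le (9 ^ n * s)
    have h2 := Int.lt_floor_add_one (9 ^ n * s)
    have e : s - ⌊9 ^ n * s⌋ / 9 ^ n = (9 ^ n * s - ⌊9 ^ n * s⌋) / 9 ^ n := by field_simp
    rw [hG θ0 θ1, Real.dist_eq, e, abs_div, abs_of_nonneg (by linarith), abs_of_pos (by positivity),
      div_pow, one_pow]
    gcongr; linarith

theorem hb (x : ℝ) : |h θ x - x| ≤ 1 := by
  have h1 := lo θ0 θ1 (n := 0) (Int.floor_le x)
  have h2 := hi θ0 θ1 (n := 0) (Int.le_ceil x)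
  have := Int.lt_floor_add_one x
  have := Int.ceil_lt_add_one x
  rw [pow_zero, div_one] at h1 h2
  rw [abs_le]; constructor <;> linarith

theorem hodd (x : ℝ) : h θ (-x) = -h θ x := by
  obtain ⟨a, h1, -⟩ := addr θ0 θ1 x
  have : ∀ n : ℕ, |h θ (-x) + h θ x| ≤ (1 / 9) ^ n := fun n => by
    have a1 := lo θ0 θ1 (h1 n).1
    have a2 := hi θ0 θ1 (h1 n).2.le
    have a3 := lo θ0 θ1 (x := -x) (n := n) (a := -(a n + 1)) (by rw [Gneg]; linarith [h1 n])
    have a4 := hi θ0 θ1 (x := -x) (n := n) (a := -a n) (by rw [Gneg]; linarith [h1 n])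
    push_cast at *
    rw [neg_div] at a3 a4
    rw [add_div] at a2 a3
    rw [div_pow, one_pow, abs_le]; constructor <;> linarith
  by_contra H
  obtain ⟨n, hn⟩ := exists_pow_lt_of_lt_one (y := 1 / 9)
    (abs_pos.2 (fun e => H (eq_neg_of_add_eq_zero_left e))) (by norm_num)
  linarith [this n]

theorem ratio (n : ℕ) : ∀ a, ep θ n * w θ n (a + 1) ≤ w θ n a := by
  induction n with
  | zero => intro a; simp only [w]; linarith [ep1 θ0 0]
  | succ n ih =>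
    intro a
    have e1 := epa θ0 n
    have e2 := ep0 θ0 (n + 1)
    have w0 := fun a => (wb θ0 θ1 n a).1.le
    by_cases c : a % 9 = 8
    · rw [w, w, show (a + 1) / 9 = a / 9 + 1 by omega, show (a + 1) % 9 = 0 by omega, c]
      have := mul_le_mul_of_nonneg_left
        ((mul_le_mul_of_nonneg_right e1 (w0 _)).trans (ih (a / 9))) θ0.le
      simp only [pp, true_or, or_true, if_true]
      linarith
    · rw [w, w, show (a + 1) / 9 = a / 9 by omega, ← mul_assoc]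
      refine mul_le_mul_of_nonneg_right ?_ (w0 _)
      have := mul_le_mul_of_nonneg_left (ppb θ0 θ1 n ((a + 1) % 9)).2 e2.le
      linarith [(ppb θ0 θ1 n (a % 9)).1]

theorem step (m : ℕ) (b c : ℤ) (hc : b / 9 = c) (β ρ ρ' : ℝ) (ρ0 : 0 ≤ ρ) (r1 : θ * ρ ≤ ρ')
    (r2 : ρ / 2 ≤ ρ' ∨ 1 ≤ θ * ρ')
    (H : β ≤ G θ m c ∧ w θ m c ≤ ρ * (G θ m c - β) ∧ w θ m (c + 1) ≤ ρ * (G θ m c - β)) :
    β ≤ G θ (m + 1) b ∧ w θ (m + 1) b ≤ ρ' * (G θ (m + 1) b - β) ∧
      w θ (m + 1) (b + 1) ≤ ρ' * (G θ (m + 1) b - β) := by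
  obtain ⟨h0, h1, h2⟩ := H
  have g1 : G θ m c ≤ G θ (m + 1) b := G9 (θ := θ) m c ▸ (Gm θ0 θ1 _).monotone (by omega)
  have ρ1 : 0 ≤ ρ' := le_trans (by positivity) r1
  have w0 := (wb θ0 θ1 m c).1.le
  have a1 := mul_le_mul r1 (sub_le_sub_right g1 β) (by linarith) ρ1
  have a2 := mul_le_mul_of_nonneg_left h1 θ0.le
  have a3 := mul_le_mul_of_nonneg_left h2 θ0.le
  refine ⟨h0.trans g1, ?_⟩
  by_cases c0 : b % 9 = 0
  · rw [w, w, show (b + 1) / 9 = c by omega, show (b + 1) % 9 = 1 by omega, c0, hc]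
    have := mul_le_mul_of_nonneg_right (ep1 θ0 m) w0
    norm_num [pp]
    constructor <;> linarith
  by_cases c8 : b % 9 = 8
  · rw [w, w, show (b + 1) / 9 = c + 1 by omega, show (b + 1) % 9 = 0 by omega, c8, hc]
    norm_num [pp]
    constructor <;> linarith
  have a4 : 1 / 2 * w θ m c ≤ ρ' * (G θ (m + 1) b - β) := by
    rcases r2 with r | r
    · have := mul_le_mul r (sub_le_sub_right g1 β) (by linarith) ρ1
      linarith
    · have g2 := (Gm θ0 θ1 (m + 1)).monotone (show 9 * c + 1 ≤ b by omega)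
      rw [Gw, G9, w, show 9 * c / 9 = c by omega, show 9 * c % 9 = 0 by omega] at g2
      simp only [pp, true_or, if_true] at g2
      have := mul_le_mul_of_nonneg_left (show θ * w θ m c ≤ G θ (m + 1) b - β by linarith) ρ1
      have := mul_le_mul_of_nonneg_right r w0
      linarith
  rw [w, w, show (b + 1) / 9 = c by omega, hc]
  exact ⟨(mul_le_mul_of_nonneg_right (ppb θ0 θ1 _ _).2 w0).trans a4,
    (mul_le_mul_of_nonneg_right (ppb θ0 θ1 _ _).2 w0).trans a4⟩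

theorem core (a : ℕ → ℤ) (ha : ∀ n, a (n + 1) / 9 = a n) (n k l : ℕ)
    (hk : θ ^ k / ep θ n ^ 2 ≤ 1 / θ) (hl : (1 / 2) ^ l ≤ θ / 4) :
    G θ (n + k + l) (a (n + k + l) + 2) - G θ (n + k + l) (a (n + k + l)) ≤
      G θ (n + k + l) (a (n + k + l)) - G θ n (a n - 1) := by
  have e0 := ep0 θ0 n
  have t0 : 0 < 1 / θ := by positivity
  have t1 : θ * (1 / θ) = 1 := by field_simp
  have t2 : 1 ≤ 1 / θ := by rw [le_div_iff₀ θ0]; linarith
  obtain ⟨β, hβ⟩ : ∃ β, β = G θ n (a n - 1) := ⟨_, rfl⟩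
  obtain ⟨Q, hQ⟩ : ∃ Q : ℕ → ℝ → Prop, ∀ m ρ, Q m ρ ↔ (β ≤ G θ m (a m) ∧
    w θ m (a m) ≤ ρ * (G θ m (a m) - β) ∧ w θ m (a m + 1) ≤ ρ * (G θ m (a m) - β)) := ⟨_, fun _ _ => Iff.rfl⟩
  have p1 : ∀ j, Q (n + j) (θ ^ j / ep θ n ^ 2 + 1 / θ) := fun j => by
    induction j with
    | zero =>
      have g := Gw (θ := θ) n (a n - 1)
      have r1 := ratio θ0 θ1 n (a n - 1)
      have r2 := mul_le_mul_of_nonneg_left (ratio θ0 θ1 n (a n)) e0.le
      have w0 := (wb θ0 θ1 n (a n - 1)).1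
      have w1 := (wb θ0 θ1 n (a n)).1
      have e1 : ep θ n ≤ 1 := by linarith [ep1 θ0 n]
      rw [sub_add_cancel] at g r1
      have := mul_le_mul_of_nonneg_right e1 (mul_pos e0 w1).le
      have := mul_pos t0 w0
      rw [hQ, add_zero, show G θ n (a n) - β = w θ n (a n - 1) by linarith, add_mul, pow_zero,
        div_mul_eq_mul_div]
      refine ⟨by linarith, le_add_of_le_of_nonneg ?_ this.le, le_add_of_le_of_nonneg ?_ this.le⟩ <;>
        rw [le_div_iff₀ (by positivity)] <;> linarith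
    | succ j ih =>
      have : 0 < θ * (θ ^ (j + 1) / ep θ n ^ 2) := by positivity
      refine (hQ _ _).2 (step θ0 θ1 _ _ _ (ha _) _ _ _ (by positivity) ?_ (.inr (by linarith))
        ((hQ _ _).1 ih))
      rw [pow_succ' θ j, mul_div_assoc]; linarith
  have p2 : ∀ j, Q (n + k + j) (2 * (1 / θ) * (1 / 2) ^ j) := fun j => by
    induction j with
    | zero =>
      obtain ⟨h1, h2, h3⟩ := (hQ _ _).1 (p1 k)
      have := mul_le_mul_of_nonneg_right hk (sub_nonneg.2 h1)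
      rw [hQ, add_zero]
      exact ⟨h1, by linarith, by linarith⟩
    | succ j ih =>
      have : 0 ≤ 2 * (1 / θ) * (1 / 2) ^ j := by positivity
      have := mul_le_mul_of_nonneg_right θ1 this
      refine (hQ _ _).2 (step θ0 θ1 _ _ _ (ha _) _ _ _ (by positivity) ?_ (.inl ?_) ((hQ _ _).1 ih)) <;>
        rw [pow_succ] <;> linarith
  obtain ⟨h1, h2, h3⟩ := (hQ _ _).1 (p2 l)
  have h4 := mul_le_mul_of_nonneg_left hl t0.le
  have h5 := mul_le_mul_of_nonneg_right (show 2 * (1 / θ) * (1 / 2) ^ l ≤ 1 / 2 by linarith)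
    (sub_nonneg.2 h1)
  rw [← one_add_one_eq_two, ← add_assoc, Gw, Gw, ← hβ]
  linarith

theorem pos : volume (h θ ⁻¹' cantorSet) ≠ 0 := fun H => by
  obtain ⟨B, hB⟩ : ∃ B : ℕ → Set ℝ, ∀ n, B n = ⋃ q ∈ range (9 ^ n) ×ˢ ({1, 3, 4, 5, 7} : Finset ℤ),
    Set.Ico (G θ (n + 1) (9 * q.1 + q.2)) (G θ (n + 1) (9 * q.1 + q.2 + 1)) := ⟨_, fun _ => rfl⟩
  have e0 := ep0 θ0
  have w0 := fun n a => (wb θ0 θ1 n a).1
  have g0 : ∀ n, G θ n 0 = 0 := fun n => by simpa using Gi (θ := θ) n 0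
  have g1 : ∀ n, G θ n (9 ^ n) = 1 := fun n => by simpa using Gi (θ := θ) n 1
  have b1 : ∀ n, volume (B n) ≤ ENNReal.ofReal (5 * ep θ n) := fun n => by
    have e : ∀ q ∈ range (9 ^ n) ×ˢ ({1, 3, 4, 5, 7} : Finset ℤ), volume (Set.Ico
        (G θ (n + 1) (9 * q.1 + q.2)) (G θ (n + 1) (9 * q.1 + q.2 + 1))) =
        ENNReal.ofReal (ep θ n * w θ n q.1) := fun q hq => by
      have := (mem_product.1 hq).2
      simp only [mem_insert, mem_singleton] at this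
      rw [Real.volume_Ico, Gw, add_sub_cancel_left, w, show (9 * (q.1 : ℤ) + q.2) / 9 = q.1 by omega, pp,
        if_neg (by omega), if_neg (by omega)]
    have e2 : ∑ c ∈ range (9 ^ n), w θ n c = 1 := by
      have := sum_range_sub (fun c : ℕ => G θ n c) (9 ^ n)
      push_cast at this
      simpa only [Gw, add_sub_cancel_left, g0, g1, sub_zero] using this
    rw [hB]
    refine (measure_biUnion_finset_le _ _).trans (le_of_eq ?_)
    rw [sum_congr rfl e, ← ENNReal.ofReal_sum_of_nonneg fun q _ => (mul_pos (e0 _) (w0 _ _)).le,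
      sum_product]
    simp only [sum_const, ← mul_assoc, nsmul_eq_mul, ← mul_sum, e2]
    norm_num
  have b2 : Set.Ico (0 : ℝ) 1 ⊆ h θ ⁻¹' cantorSet ∪ ⋃ n, B n := fun x hx => by
    obtain ⟨a, h1, h2⟩ := addr θ0 θ1 x
    by_contra hn
    simp only [Set.mem_union, Set.mem_iUnion, not_or, not_exists] at hn
    have d : ∀ n, a (n + 1) % 9 = 0 ∨ a (n + 1) % 9 = 2 ∨ a (n + 1) % 9 = 6 ∨ a (n + 1) % 9 = 8 := by
      intro n
      by_contra hd
      have a1 := (Gm θ0 θ1 n).lt_iff_lt.1 (((g0 n).trans_le hx.1).trans_lt (h1 n).2)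
      have a2 := (Gm θ0 θ1 n).lt_iff_lt.1 (((h1 n).1.trans_lt hx.2).trans_eq (g1 n).symm)
      have a3 := h2 n
      apply hn.2 n
      rw [hB]
      simp only [Set.mem_iUnion, exists_prop]
      refine ⟨((a n).toNat, a (n + 1) % 9), mem_product.2 ⟨mem_range.2 ?_, ?_⟩, ?_⟩
      · zify; omega
      · simp only [mem_insert, mem_singleton]; omega
      · rw [show 9 * ((a n).toNat : ℤ) + a (n + 1) % 9 = a (n + 1) by omega]; exact h1 _
    have c : ∀ k m, 9 ^ m * h θ x - a m ∈ preCantorSet k := fun k => by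
      induction k with
      | zero =>
        intro m
        have a1 := lo θ0 θ1 (h1 m).1
        have a2 := hi θ0 θ1 (h1 m).2.le
        rw [div_le_iff₀ (by positivity)] at a1
        rw [le_div_iff₀ (by positivity)] at a2
        push_cast at a2
        constructor <;> linarith
      | succ k ih =>
        intro m
        refine preCantorSet_antitone (Nat.le_succ _) ?_
        have e : (a (m + 1) : ℝ) = 9 * a m + (a (m + 1) % 9 : ℤ) := by
          have := h2 m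
          exact_mod_cast (by omega : a (m + 1) = 9 * a m + a (m + 1) % 9)
        have i := ih (m + 1)
        rw [e, pow_succ] at i
        rcases d m with c | c | c | c <;> rw [c] at i <;> push_cast at i
        · exact .inl ⟨_, .inl ⟨_, i, rfl⟩, by ring⟩
        · exact .inl ⟨_, .inr ⟨_, i, rfl⟩, by ring⟩
        · exact .inr ⟨_, .inl ⟨_, i, rfl⟩, by ring⟩
        · exact .inr ⟨_, .inr ⟨_, i, rfl⟩, by ring⟩
    have a0 : a 0 = 0 := by
      have a1 : (0 : ℝ) < (a 0 + 1 : ℤ) := hx.1.trans_lt (h1 0).2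
      have a2 : (a 0 : ℝ) < 1 := (h1 0).1.trans_lt hx.2
      norm_cast at a1 a2; omega
    exact hn.1 (Set.mem_iInter.2 fun k => by simpa [a0] using c k 0)
  have b3 : ∀ N : ℕ, ∑ n ∈ range N, 5 * ep θ n ≤ 5 * θ * (1 - 1 / (N + 1)) := fun N => by
    induction N with
    | zero => simp
    | succ N ih =>
      have : 1 / ((N : ℝ) + 2) ^ 2 ≤ 1 / (N + 1) - 1 / (N + 1 + 1) := by
        rw [div_sub_div _ _ (by positivity) (by positivity), div_le_div_iff₀ (by positivity) (by positivity)]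
        nlinarith [Nat.cast_nonneg (α := ℝ) N]
      have := mul_le_mul_of_nonneg_left this θ0.le
      rw [sum_range_succ, ep, div_eq_mul_one_div θ]
      push_cast; linarith
  have b4 := (measure_mono b2).trans ((measure_union_le _ _).trans (add_le_add H.le
    ((measure_iUnion_le _).trans ((ENNReal.tsum_le_tsum b1).trans
      (ENNReal.tsum_le_of_sum_range_le (c := ENNReal.ofReal (1 / 2)) fun N => ?_)))))
  · rw [Real.volume_Ico, zero_add, ENNReal.ofReal_le_ofReal_iff (by norm_num)] at b4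
    linarith
  rw [← ENNReal.ofReal_sum_of_nonneg fun n _ => by have := e0 n; positivity]
  have : 0 ≤ θ * (1 / ((N : ℝ) + 1)) := by positivity
  exact ENNReal.ofReal_le_ofReal (by linarith [b3 N])

end

theorem qs : ∃ C : ℝ, 1 ≤ C ∧ ∀ x t, 0 < t → (h (9 ^ 24)⁻¹ x - h (9 ^ 24)⁻¹ (x - t)) ^ 6 ≤
    C * log (3 + t ^ (-(1 / 2) : ℝ)) * (h (9 ^ 24)⁻¹ (x + t) - h (9 ^ 24)⁻¹ x) ^ 6 := by
  obtain ⟨θ, hθ⟩ : ∃ θ : ℝ, θ = (9 ^ 24)⁻¹ := ⟨_, rfl⟩
  have θ0 : 0 < θ := by rw [hθ]; positivity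
  have θ1 : θ ≤ 1 / 100 := by rw [hθ]; norm_num
  rw [← hθ]
  obtain ⟨l, hl⟩ := exists_pow_lt_of_lt_one (x := θ / 4) (y := 1 / 2) (by positivity) (by norm_num)
  obtain ⟨D, hD⟩ : ∃ D : ℝ, D = 18 * 9 ^ (l + 2) := ⟨_, rfl⟩
  have D1 : 2 ≤ D := by rw [hD]; linarith [one_le_pow₀ (n := l + 2) (show (1 : ℝ) ≤ 9 by norm_num)]
  have D2 := pow_le_pow_left₀ (by norm_num) D1 6
  refine ⟨D ^ 6 * 44, by linarith, fun x t t0 => ?_⟩
  obtain ⟨L, hL⟩ : ∃ L, L = log (3 + t ^ (-(1 / 2) : ℝ)) := ⟨_, rfl⟩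
  have r0 := rpow_pos_of_pos t0 (-(1 / 2))
  have L1 : 1 ≤ L := by
    rw [hL, le_log_iff_exp_le (by linarith)]; linarith [exp_one_lt_d9]
  have L2 : -(1 / 2) * log t ≤ L := by
    rw [hL, ← log_rpow t0]; exact log_le_log r0 (by linarith)
  have m := hm θ0 θ1
  have s0 := sub_pos.2 (m (show x - t < x by linarith))
  have u0 := sub_pos.2 (m (show x < x + t by linarith))
  have b1 := abs_le.1 (hb θ0 θ1 x)
  have b2 := abs_le.1 (hb θ0 θ1 (x - t))
  have b3 := abs_le.1 (hb θ0 θ1 (x + t))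
  rw [← hL]
  obtain ⟨s, hs⟩ : ∃ s, s = h θ x - h θ (x - t) := ⟨_, rfl⟩
  obtain ⟨u, hu⟩ : ∃ s, s = h θ (x + t) - h θ x := ⟨_, rfl⟩
  rw [← hs] at s0 ⊢
  rw [← hu] at u0 ⊢
  suffices ∃ M, s ≤ D * M * u ∧ M ^ 6 ≤ 44 * L by
    obtain ⟨M, h1, h2⟩ := this
    have a1 := pow_le_pow_left₀ s0.le h1 6
    have a2 := mul_le_mul_of_nonneg_left h2 (show 0 ≤ D ^ 6 * u ^ 6 by positivity)
    rw [mul_pow, mul_pow] at a1
    linarith
  rcases le_or_gt 6 t with c | c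
  · exact ⟨1, by nlinarith, by linarith⟩
  obtain ⟨n, n1, n2⟩ := exists_nat_pow_near (x := 18 / s) (y := 9)
    (by rw [le_div_iff₀ s0]; linarith) (by norm_num)
  obtain ⟨k, k1, k2⟩ := exists_nat_pow_near (x := (n : ℝ) + 2) (y := 9 ^ 6)
    (by linarith [Nat.cast_nonneg (α := ℝ) n]) (by norm_num)
  obtain ⟨a, h1, h2⟩ := addr θ0 θ1 x
  have N0 : (0 : ℝ) < 9 ^ n := by positivity
  rw [le_div_iff₀ s0] at n1
  rw [div_lt_iff₀ s0, pow_succ] at n2
  have a1 := lo θ0 θ1 (h1 n).1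
  have a2 := hi θ0 θ1 (h1 n).2.le
  rw [div_le_iff₀ N0] at a1
  rw [le_div_iff₀ N0] at a2
  push_cast at a2
  have c1 : x - t ≤ G θ n (a n - 1) := m.le_iff_le.1 (by
    rw [hG θ0 θ1, le_div_iff₀ N0]; push_cast; rw [hs] at n2; linarith)
  have c2 : G θ n (a n - 18) ≤ x - t := m.le_iff_le.1 (by
    rw [hG θ0 θ1, div_le_iff₀ N0]; push_cast; rw [hs] at n1; linarith)
  have c3 := core θ0 θ1 a h2 n (k + 2) l (by
    have : θ ^ k * (n + 2) ^ 4 ≤ θ ^ k * ((9 ^ 6) ^ (k + 1)) ^ 4 := by gcongr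
    rw [show (((9 : ℝ) ^ 6) ^ (k + 1)) ^ 4 = (9 ^ 24) ^ k * 9 ^ 24 by
      simp only [← pow_mul, ← pow_add]; congr 1; ring, ← mul_assoc, ← mul_pow] at this
    nth_rewrite 2 [hθ] at this
    rw [inv_mul_cancel₀ (by positivity), one_pow, one_mul] at this
    rw [ep, show θ ^ (k + 2) / (θ / (n + 2) ^ 2) ^ 2 = θ ^ k * (n + 2) ^ 4 by field_simp; ring]
    exact this.trans (by rw [hθ]; simp)) hl.le
  obtain ⟨N, hN⟩ : ∃ N, N = n + (k + 2) + l := ⟨_, rfl⟩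
  rw [← hN] at c3
  have c4 := lo θ0 θ1 (show G θ N (a N + 2) ≤ x + t by linarith [h1 N])
  have c5 := hi θ0 θ1 (h1 N).2.le
  rw [div_le_iff₀ (by positivity)] at c4
  rw [le_div_iff₀ (by positivity)] at c5
  push_cast at c4 c5
  refine ⟨9 ^ k, le_of_mul_le_mul_left (n1.trans ?_) N0, ?_⟩
  · have : (9 : ℝ) ^ N = 9 ^ n * (9 ^ (l + 2) * 9 ^ k) := by rw [hN]; ring
    rw [this] at c4 c5
    rw [hD, hu]; linarith
  · have c6 := Gj θ0 θ1 n (a n - 18) 19
    rw [show a n - 18 + (19 : ℕ) = a n + 1 by push_cast; ring] at c6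
    have c7 := log_le_log t0 (show t ≤ 19 * (1 / 2) ^ n by push_cast at c6; linarith [h1 n])
    rw [log_mul (by norm_num) (by positivity), log_pow, one_div, log_inv] at c7
    have c8 := log_le_sub_one_of_pos (show (0 : ℝ) < 19 by norm_num)
    have c9 := mul_le_mul_of_nonneg_left log_two_gt_d9.le (Nat.cast_nonneg (α := ℝ) n)
    rw [← pow_mul, mul_comm k, pow_mul]
    linarith

end Pool.Agent.H.MP_fbc045_an
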