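import Mathlib

set_option autoImplicit false

namespace Pool.Agent.H.MP_fbc045_an

open Real MeasureTheory Set Filter Topology Complex

theorem line (Φ : ℂ → ℂ) (G : ℂ → ℂ →L[ℝ] ℂ) (z v : ℂ) (hv : ‖v‖ = 1) (c : Continuous Φ)
    (s : HasCompactSupport Φ) (d : ∀ t : ℝ, t ≠ 0 → HasFDerivAt Φ (G (z + t • v)) (z + t • v))
    (i : Integrable fun t : ℝ => G (z + t • v) v) : ∫ t : ℝ, G (z + t • v) v = 0 := by
  have e : Isometry fun t : ℝ => z + t • v := Isometry.of_dist_eq fun a b => by
    rw [dist_add_left, dist_eq_norm, ← sub_smul, norm_smul, hv, mul_one, dist_eq_norm]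
  have z0 := (s.comp_isClosedEmbedding e.isClosedEmbedding).is_zero_at_infty
  have d' : ∀ t : ℝ, t ≠ 0 → HasDerivAt (Φ ∘ fun t : ℝ => z + t • v) (G (z + t • v) v) t := fun t ht => by
    simpa using (d t ht).comp_hasDerivAt t (((hasDerivAt_id t).smul_const v).const_add z)
  have c' := c.comp e.continuous
  rw [← intervalIntegral.integral_Iic_add_Ioi (b := 0) i.integrableOn i.integrableOn,
    integral_Iic_of_hasDerivAt_of_tendsto c'.continuousWithinAt (fun t ht => d' t ht.ne) i.integrableOn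
      (z0.mono_left atBot_le_cocompact),
    integral_Ioi_of_hasDerivAt_of_tendsto c'.continuousWithinAt (fun t ht => d' t ht.ne') i.integrableOn
      (z0.mono_left atTop_le_cocompact)]
  simp

theorem ibp (f : ℂ → ℂ) (c : Continuous f) (d : ∀ z : ℂ, z.im ≠ 0 → DifferentiableAt ℝ f z)
    (i : LocallyIntegrable (fderiv ℝ f) volume) (φ : ℂ → ℝ) (p1 : ContDiff ℝ 1 φ)
    (p2 : HasCompactSupport φ) (v : ℂ) :
    ∫ x, (fderiv ℝ φ x v) • f x = -∫ x, φ x • fderiv ℝ f x v := by
  have i1 : Integrable fun x => (fderiv ℝ φ x).smulRight (f x) := by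
    refine Continuous.integrable_of_hasCompactSupport
      ((ContinuousLinearMap.smulRightL ℝ ℂ ℂ).continuous₂.comp
        ((p1.continuous_fderiv one_ne_zero).prodMk c)) ((p2.fderiv (𝕜 := ℝ)).mono fun x hx h => hx ?_)
    simp [h]
  have i2 := i.integrable_smul_left_of_hasCompactSupport p1.continuous p2
  obtain ⟨G, hG⟩ : ∃ G : ℂ → ℂ →L[ℝ] ℂ, G = fun x => φ x • fderiv ℝ f x + (fderiv ℝ φ x).smulRight (f x) :=
    ⟨_, rfl⟩
  have i3 : Integrable G := hG ▸ i2.add i1
  have d1 : ∀ z : ℂ, z.im ≠ 0 → HasFDerivAt (fun x => φ x • f x) (G z) z := fun z hz => by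
    rw [hG]; exact (p1.differentiable one_ne_zero z).hasFDerivAt.smul (d z hz).hasFDerivAt
  have c1 : Continuous fun x => φ x • f x := p1.continuous.smul c
  have s1 : HasCompactSupport fun x => φ x • f x := p2.smul_right
  have mp := volume_preserving_equiv_real_prod.symm
  have i4 : ∀ u, Integrable (fun p : ℝ × ℝ => G (measurableEquivRealProd.symm p) u) (volume.prod volume) :=
    fun u => mp.integrable_comp_of_integrable (i3.apply_continuousLinearMap u)
  have e1 : ∀ x y : ℝ, measurableEquivRealProd.symm (x, y) = x + y • I := fun x y => by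
    apply Complex.ext <;> simp
  have e2 : ∀ x y : ℝ, measurableEquivRealProd.symm (x, y) = y * I + x • 1 := fun x y => by
    apply Complex.ext <;> simp
  have k1 : ∫ z, G z I = 0 := by
    rw [← mp.integral_comp', Measure.volume_eq_prod, integral_prod _ (i4 I)]
    refine integral_eq_zero_of_ae ?_
    filter_upwards [(i4 I).prod_right_ae] with x hx
    simp only [e1] at hx ⊢
    exact line _ G x I norm_I c1 s1 (fun t ht => d1 _ (by simpa using ht)) hx
  have k2 : ∫ z, G z 1 = 0 := by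
    rw [← mp.integral_comp', Measure.volume_eq_prod, integral_prod_symm _ (i4 1)]
    refine integral_eq_zero_of_ae ?_
    filter_upwards [(i4 1).prod_left_ae, compl_mem_ae_iff.2 (measure_singleton (0 : ℝ))] with y hy y0
    simp only [e2] at hy ⊢
    exact line _ G _ 1 norm_one c1 s1 (fun t _ => d1 _ (by simpa using y0)) hy
  have k3 : ∫ z, G z v = 0 := by
    rw [← ContinuousLinearMap.integral_apply i3] at k1 k2 ⊢
    rw [show v = v.re • (1 : ℂ) + v.im • I by apply Complex.ext <;> simp, map_add, map_smul, map_smul, k1, k2]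
    simp
  have := integral_add (i2.apply_continuousLinearMap v) (i1.apply_continuousLinearMap v)
  simp only [hG, ContinuousLinearMap.add_apply] at k3
  rw [k3] at this
  exact eq_neg_of_add_eq_zero_right this.symm

theorem locim (g : ℝ → ℝ) (i : LocallyIntegrable g volume) :
    LocallyIntegrable (fun z : ℂ => g z.im) volume := by
  refine locallyIntegrable_iff.2 fun K hK => ?_
  obtain ⟨R, hR⟩ := hK.isBounded.exists_norm_le
  refine ((volume_preserving_equiv_real_prod.integrableOn_comp_preimage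
    measurableEquivRealProd.measurableEmbedding (f := fun p => g p.2)
    (s := Icc (-R) R ×ˢ Icc (-R) R)).2 ?_).mono_set fun z hz =>
      ⟨abs_le.1 ((abs_re_le_norm z).trans (hR z hz)), abs_le.1 ((abs_im_le_norm z).trans (hR z hz))⟩
  rw [IntegrableOn, Measure.volume_eq_prod, ← Measure.prod_restrict]
  exact (i.integrableOn_isCompact isCompact_Icc).comp_snd _

theorem aeim : ∀ᵐ z : ℂ, z.im ≠ 0 :=
  compl_mem_ae_iff.2 (Measure.addHaar_submodule volume (LinearMap.ker imLm) fun e => by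
    simpa using (e ▸ Submodule.mem_top : I ∈ LinearMap.ker imLm))

theorem jac (f : ℂ → ℂ) (c : Continuous f) (d : ∀ z : ℂ, z.im ≠ 0 → DifferentiableAt ℝ f z)
    (i : Function.Injective f) : LocallyIntegrable (fun z => (fderiv ℝ f z).det) volume := by
  refine locallyIntegrable_iff.2 fun K hK => ⟨(ContinuousLinearMap.continuous_det.measurable.comp
    (measurable_fderiv ℝ f)).aestronglyMeasurable, ?_⟩
  have := lintegral_abs_det_fderiv_le_addHaar_image volume (s := K ∩ {z | z.im ≠ 0})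
    (hK.measurableSet.inter (measurable_im (measurableSet_singleton 0).compl))
    (fun z hz => (d z hz.2).hasFDerivAt.hasFDerivWithinAt) i.injOn
  rw [Measure.restrict_congr_set (inter_ae_eq_left_of_ae_eq_univ (ae_eq_univ.2 aeim))] at this
  simp only [HasFiniteIntegral, enorm_eq_ofReal_abs]
  exact (this.trans (measure_mono (image_mono inter_subset_left))).trans_lt (hK.image c).measure_lt_top

noncomputable def al (h : ℝ → ℝ) (x y : ℝ) : ℝ := ∫ t in (0 : ℝ)..1, h (x + t * y)

noncomputable def F (h : ℝ → ℝ) (z : ℂ) : ℂ :=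
  ((al h z.re z.im + al h z.re (-z.im)) / 2) • 1 + (al h z.re z.im - al h z.re (-z.im)) • I

theorem Fr (h : ℝ → ℝ) (x : ℝ) : F h x = h x := by simp [F, al]

variable {h : ℝ → ℝ} (hc : Continuous h) (hm : StrictMono h) (hb : ∀ x, |h x - x| ≤ 1)
include hc

theorem alc : Continuous fun p : ℝ × ℝ => al h p.1 p.2 :=
  intervalIntegral.continuous_parametric_intervalIntegral_of_continuous' (by fun_prop) 0 1

theorem Fc : Continuous (F h) := by
  have h1 := (alc hc).comp (continuous_re.prodMk continuous_im)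
  have h2 := (alc hc).comp (continuous_re.prodMk continuous_im.neg)
  exact (((h1.add h2).div_const 2).smul continuous_const).add ((h1.sub h2).smul continuous_const)

theorem ald (ℓ : ℂ →L[ℝ] ℝ) (z : ℂ) (hz : ℓ z ≠ 0) : HasFDerivAt (fun z : ℂ => al h z.re (ℓ z))
    (((h (z.re + ℓ z) - h z.re) / ℓ z) • reCLM + ((h (z.re + ℓ z) - al h z.re (ℓ z)) / ℓ z) • ℓ) z := by
  have e : ∀ x y : ℝ, y ≠ 0 → al h x y = ((∫ t in (0 : ℝ)..x + y, h t) - ∫ t in (0 : ℝ)..x, h t) * y⁻¹ :=
    fun x y hy => by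
      rw [intervalIntegral.integral_interval_sub_left (hc.intervalIntegrable _ _) (hc.intervalIntegrable _ _)]
      simpa [al, add_comm, mul_comm] using intervalIntegral.integral_comp_mul_add (a := 0) (b := 1) h hy x
  have H := fun u => (hc.integral_hasStrictDerivAt 0 u).hasDerivAt
  have := (((H _).comp_hasFDerivAt z (reCLM.hasFDerivAt.add ℓ.hasFDerivAt)).sub
    ((H _).comp_hasFDerivAt z reCLM.hasFDerivAt)).mul
    ((hasDerivAt_inv hz).comp_hasFDerivAt z ℓ.hasFDerivAt)
  refine (this.congr_of_eventuallyEq ?_).congr_fderiv ?_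
  · filter_upwards [ℓ.continuous.continuousAt.eventually_ne hz] with u hu
    simpa using e u.re (ℓ u) hu
  · ext v
    simp [e _ _ hz]
    field_simp
    ring

include hm

theorem allt {x x' y y' : ℝ} (h1 : x ≤ x') (h2 : y ≤ y') (h3 : x + y < x' + y') :
    al h x y < al h x' y' :=
  intervalIntegral.integral_lt_integral_of_continuousOn_of_le_of_exists_lt one_pos (by fun_prop)
    (by fun_prop) (fun t ht => hm.monotone (by nlinarith [ht.1])) ⟨1, by simp, hm (by linarith)⟩

theorem alB (x y : ℝ) (hy : y ≠ 0) : (h (x + y) - h (x + y / 2)) / y / 2 ≤ (h (x + y) - al h x y) / y ∧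
    (h (x + y) - al h x y) / y ≤ (h (x + y) - h x) / y ∧ 0 ≤ (h (x + y) - h (x + y / 2)) / y ∧
      0 ≤ (h (x + y / 2) - h x) / y := by
  obtain ⟨φ, hφ⟩ : ∃ φ : ℝ → ℝ, φ = fun t => h (x + t * y) / y := ⟨_, rfl⟩
  have m : Monotone φ := fun a b hab => by
    rw [hφ]
    rcases lt_or_gt_of_ne hy with c | c
    · exact div_le_div_of_nonpos_of_le c.le (hm.monotone (by nlinarith))
    · exact div_le_div_of_nonneg_right (hm.monotone (by nlinarith)) c.le
  have e : al h x y / y = ∫ t in (0 : ℝ)..1, φ t := by rw [hφ, intervalIntegral.integral_div, al]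
  have a1 := intervalIntegral.integral_mono_on (a := 0) (b := 1) (μ := volume) zero_le_one
    intervalIntegrable_const m.intervalIntegrable fun t ht => m ht.1
  have a2 := intervalIntegral.integral_mono_on (a := 0) (b := 1 / 2) (μ := volume) (by norm_num)
    m.intervalIntegrable intervalIntegrable_const fun t ht => m ht.2
  have a3 := intervalIntegral.integral_mono_on (a := 1 / 2) (b := 1) (μ := volume) (by norm_num)
    m.intervalIntegrable intervalIntegrable_const fun t ht => m ht.2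
  have a4 := intervalIntegral.integral_add_adjacent_intervals (μ := volume)
    (m.intervalIntegrable (a := 0) (b := 1 / 2)) (m.intervalIntegrable (a := 1 / 2) (b := 1))
  have a5 := m (show (0 : ℝ) ≤ 1 / 2 by norm_num)
  have a6 := m (show (1 / 2 : ℝ) ≤ 1 by norm_num)
  have e0 : φ 0 = h x / y := by simp [hφ]
  have e1 : φ 1 = h (x + y) / y := by simp [hφ]
  have e2 : φ (1 / 2) = h (x + y / 2) / y := by rw [hφ]; ring_nf
  simp only [intervalIntegral.integral_const, smul_eq_mul] at a1 a2 a3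
  simp only [sub_div, e, ← e0, ← e1, ← e2]
  refine ⟨?_, ?_, ?_, ?_⟩ <;> linarith

theorem Fi : Function.Injective (F h) := fun z u H => by
  have h1 := congrArg re H
  have h2 := congrArg im H
  simp [F] at h1 h2
  have k : ∀ x y x' y' : ℝ, al h x y = al h x' y' → al h x (-y) = al h x' (-y') → x ≤ x' → x = x' ∧ y = y' := by
    intro x y x' y' a b c
    by_contra n
    rcases le_total y y' with d | d
    · exact (allt hc hm c d (by by_contra; apply n; constructor <;> linarith)).ne a
    · exact (allt hc hm c (neg_le_neg d) (by by_contra; apply n; constructor <;> linarith)).ne b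
  rcases le_total z.re u.re with c | c
  · obtain ⟨a, b⟩ := k _ z.im _ u.im (by linarith) (by linarith) c
    exact Complex.ext a b
  · obtain ⟨a, b⟩ := k _ u.im _ z.im (by linarith) (by linarith) c
    exact Complex.ext a.symm b.symm

theorem Fd (z : ℂ) (hz : z.im ≠ 0) (K : ℝ) (K1 : 1 ≤ K)
    (q : ∀ p τ, |τ| = |z.im| / 2 → (h p - h (p - τ)) ^ 6 ≤ K * (h (p + τ) - h p) ^ 6) :
    DifferentiableAt ℝ (F h) z ∧ ‖fderiv ℝ (F h) z‖ ^ 2 ≤ 144 * K * (fderiv ℝ (F h) z).det := by
  have d1 := ald hc imCLM z hz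
  have d2 := ald hc (-imCLM) z (by simpa using hz)
  have D : HasFDerivAt (F h) _ z := ((((d1.add d2).mul_const 2⁻¹).smul_const (1 : ℂ)).add
    ((d1.sub d2).smul_const I))
  refine ⟨D.differentiableAt, ?_⟩
  obtain ⟨a1, a2, a3, a4⟩ := alB hc hm z.re z.im hz
  obtain ⟨b1, b2, b3, b4⟩ := alB hc hm z.re (-z.im) (by simpa using hz)
  obtain ⟨M, M0, hM⟩ : ∃ M : ℝ, 0 ≤ M ∧ M ^ 6 = K :=
    ⟨K ^ ((6 : ℕ) : ℝ)⁻¹, by positivity, Real.rpow_inv_natCast_pow (by linarith) (by norm_num)⟩
  have M1 : 1 ≤ M := (one_le_pow_iff_of_nonneg M0 (n := 6) (by norm_num)).1 (by linarith)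
  have q' : ∀ p τ a b c d y y' : ℝ, |τ| = |z.im| / 2 → y ^ 2 = y' ^ 2 → (a - b) ^ 6 = (h p - h (p - τ)) ^ 6 →
      (c - d) ^ 6 = (h (p + τ) - h p) ^ 6 → 0 ≤ (c - d) / y' → (a - b) / y ≤ M * ((c - d) / y') := by
    intro p τ a b c d y y' t e e1 e2 n
    refine le_of_pow_le_pow_left₀ (n := 6) (by norm_num) (by positivity) ?_
    rw [mul_pow, div_pow, div_pow, hM, e1, e2, ← mul_div_assoc,
      show y ^ 6 = y' ^ 6 by rw [show 6 = 2 * 3 from rfl, pow_mul, pow_mul, e]]
    exact div_le_div_of_nonneg_right (q p τ t) (by positivity)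
  obtain ⟨x, hx⟩ : ∃ x, x = z.re := ⟨_, rfl⟩
  obtain ⟨y, hy⟩ : ∃ x, x = z.im := ⟨_, rfl⟩
  simp only [ContinuousLinearMap.neg_apply, imCLM_apply, ← hx, ← hy] at D a1 a2 a3 a4 b1 b2 b3 b4 q'
  have t1 : |y / 2| = |y| / 2 := by rw [abs_div, abs_two]
  have t2 : |-y / 2| = |y| / 2 := by rw [abs_div, abs_two, abs_neg]
  have q1 := q' (x + y / 2) (y / 2) (h (x + y / 2)) (h x) _ _ y y t1 rfl (by ring_nf) (by ring_nf) a3
  have q2 := q' (x + y / 2) (-y / 2) (h (x + y)) (h (x + y / 2)) _ _ y y t2 rfl (by ring_nf) (by ring_nf) a4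
  have q3 := q' (x + -y / 2) (-y / 2) (h (x + -y / 2)) (h x) _ _ (-y) (-y) t2 rfl (by ring_nf) (by ring_nf) b3
  have q4 := q' (x + -y / 2) (y / 2) (h (x + -y)) (h (x + -y / 2)) _ _ (-y) (-y) t1 rfl (by ring_nf)
    (by ring_nf) b4
  have q5 := q' x (y / 2) (h (x + -y / 2)) (h x) _ _ (-y) y t1 (by ring) (by ring_nf) (by ring_nf) a4
  have q6 := q' x (-y / 2) (h (x + y / 2)) (h x) _ _ y (-y) t2 (by ring) (by ring_nf) (by ring_nf) b4
  have e1 : (h (x + y) - h x) / y = (h (x + y) - h (x + y / 2)) / y + (h (x + y / 2) - h x) / y := by ring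
  have e2 : (h (x + -y) - h x) / -y = (h (x + -y) - h (x + -y / 2)) / -y + (h (x + -y / 2) - h x) / -y := by
    ring
  rw [e1] at D a2
  rw [e2] at D b2
  generalize (h (x + y) - h (x + y / 2)) / y = d4 at *
  generalize (h (x + y / 2) - h x) / y = d3 at *
  generalize (h (x + -y) - h (x + -y / 2)) / -y = d1 at *
  generalize (h (x + -y / 2) - h x) / -y = d2 at *
  generalize (h (x + y) - al h x y) / y = B1 at *
  generalize (h (x + -y) - al h x (-y)) / -y = B2 at *
  have n1 : ‖fderiv ℝ (F h) z‖ ≤ 3 * (d1 + d2 + d3 + d4) := by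
    rw [D.fderiv]
    refine ContinuousLinearMap.opNorm_le_bound _ (by positivity) fun v => (norm_le_abs_re_add_abs_im _).trans ?_
    have r := abs_le.1 (abs_re_le_norm v)
    have i := abs_le.1 (abs_im_le_norm v)
    have k : ∀ c s : ℝ, 0 ≤ c → -‖v‖ ≤ s ∧ s ≤ ‖v‖ → -(c * ‖v‖) ≤ c * s ∧ c * s ≤ c * ‖v‖ :=
      fun c s c0 hs => ⟨by nlinarith [hs.1], by nlinarith [hs.2]⟩
    have k1 := k _ _ (add_nonneg a3 a4) r
    have k2 := k _ _ (add_nonneg b3 b4) r
    have k3 := k B1 _ (by linarith) i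
    have k4 := k B2 _ (by linarith) i
    have k5 := mul_le_mul_of_nonneg_right a2 (norm_nonneg v)
    have k6 := mul_le_mul_of_nonneg_right b2 (norm_nonneg v)
    simp
    refine (add_le_add (abs_le.2 (⟨?_, ?_⟩ : _ ∧ _ ≤ (d1 + d2 + d3 + d4) * ‖v‖))
      (abs_le.2 (⟨?_, ?_⟩ : _ ∧ _ ≤ 2 * (d1 + d2 + d3 + d4) * ‖v‖))).trans ?_ <;> linarith
  have n2 : (fderiv ℝ (F h) z).det = (d4 + d3) * B2 + (d1 + d2) * B1 := by
    rw [D.fderiv, ContinuousLinearMap.det, ← LinearMap.det_toMatrix basisOneI, Matrix.det_fin_two]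
    simp [LinearMap.toMatrix_apply]
    ring
  have k : ∀ a b c d : ℝ, 0 ≤ a → b ≤ M * a → c ≤ M * b → d ≤ M * c → a + b + c + d ≤ 4 * M ^ 3 * a := by
    intro a b c d a0 h1 h2 h3
    have h4 := h2.trans (mul_le_mul_of_nonneg_left h1 M0)
    have h5 := h3.trans (mul_le_mul_of_nonneg_left h4 M0)
    have h6 := mul_le_mul_of_nonneg_right M1 a0
    have h7 := mul_le_mul_of_nonneg_left h6 M0
    have h8 := mul_le_mul_of_nonneg_left h7 M0
    linarith
  have k1 := mul_le_mul (k _ _ _ _ b3 q3 q6 q2) (k _ _ _ _ a3 q1 q5 q4) (by positivity) (by positivity)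
  have k2 := pow_le_pow_left₀ (norm_nonneg _) n1 2
  have k3 : d1 * d4 ≤ (d4 + d3) * B2 + (d1 + d2) * B1 := by
    have := mul_le_mul (show d4 ≤ d4 + d3 by linarith) b1 (by linarith) (by linarith)
    have := mul_le_mul (show d1 ≤ d1 + d2 by linarith) a1 (by linarith) (by linarith)
    linarith
  have k4 := mul_le_mul_of_nonneg_left k3 (show 0 ≤ K by linarith)
  rw [n2]
  rw [← hM] at k4 ⊢
  linarith

include hb

omit hm in
theorem alb (x y : ℝ) : |al h x y - (x + y / 2)| ≤ 1 := by
  have e : x + y / 2 = ∫ t in (0 : ℝ)..1, (x + t * y) := by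
    rw [intervalIntegral.integral_add (by simp) (by apply Continuous.intervalIntegrable; fun_prop)]
    simp; ring
  rw [e, al, ← intervalIntegral.integral_sub (by apply Continuous.intervalIntegrable; fun_prop)
    (by apply Continuous.intervalIntegrable; fun_prop)]
  simpa using intervalIntegral.norm_integral_le_of_norm_le_const (a := 0) (b := 1) (C := 1)
    (f := fun t => h (x + t * y) - (x + t * y)) fun t _ => hb _

theorem Fs : Function.Surjective (F h) := fun z => by
  have b := fun x y => abs_le.1 (alb hc hb x y)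
  have iv : ∀ (g : ℝ → ℝ) (p s t : ℝ), Continuous g → g s ≤ p → p ≤ g t → ∃ u, g u = p :=
    fun g p s t c h1 h2 => intermediate_value_univ s t c ⟨h1, h2⟩
  obtain ⟨p, hp⟩ : ∃ p, p = z.re + z.im / 2 := ⟨_, rfl⟩
  have : ∀ y, ∃ x, al h (-x) y = p := fun y => iv _ p (1 - p + y / 2) (-1 - p + y / 2)
    ((alc hc).comp (continuous_neg.prodMk continuous_const)) (by linarith [b (-(1 - p + y / 2)) y])
    (by linarith [b (-(-1 - p + y / 2)) y])
  choose X hX using this
  have m : Monotone X := fun y y' H => not_lt.1 fun c =>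
    (allt hc hm (neg_le_neg c.le) H (by linarith)).ne (by rw [hX, hX])
  have c := m.continuous_of_surjective fun x => by
    obtain ⟨y, hy⟩ := iv (fun y => al h (-x) y) p (2 * (p + x - 1)) (2 * (p + x + 1))
      ((alc hc).comp (continuous_const.prodMk continuous_id)) (by linarith [b (-x) (2 * (p + x - 1))])
      (by linarith [b (-x) (2 * (p + x + 1))])
    refine ⟨y, ?_⟩
    rcases lt_trichotomy (X y) x with c | c | c
    · exact absurd (hy.trans (hX y).symm) (allt hc hm (by linarith) le_rfl (by linarith)).ne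
    · exact c
    · exact absurd ((hX y).trans hy.symm) (allt hc hm (by linarith) le_rfl (by linarith)).ne
  have b2 : ∀ y, p - y - 2 ≤ al h (-X y) (-y) ∧ al h (-X y) (-y) ≤ p - y + 2 := fun y => by
    constructor <;> linarith [b (-X y) y, b (-X y) (-y), hX y]
  obtain ⟨y, hy⟩ := iv (fun y => al h (-X y) (-y)) (p - z.im) (z.im + 2) (z.im - 2)
    ((alc hc).comp (c.neg.prodMk continuous_neg)) (by linarith [b2 (z.im + 2)]) (by linarith [b2 (z.im - 2)])
  refine ⟨⟨-X y, y⟩, ?_⟩
  apply Complex.ext <;> simp [F, hX, hy, hp]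
  ring

omit hm in
theorem Fp : IsClosedMap (F h) := by
  refine (isProperMap_iff_tendsto_cocompact.2 ⟨Fc hc, tendsto_cocompact_cocompact_of_norm
    fun ε => ⟨ε + 3, fun z hz => ?_⟩⟩).isClosedMap
  have b1 := abs_le.1 (alb hc hb z.re z.im)
  have b2 := abs_le.1 (alb hc hb z.re (-z.im))
  have : ‖z - F h z‖ ≤ 1 + 2 := (norm_le_abs_re_add_abs_im _).trans
    (add_le_add (by simp [F, abs_le]; constructor <;> linarith) (by simp [F, abs_le]; constructor <;> linarith))
  linarith [norm_sub_norm_le z (F h z)]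

end Pool.Agent.H.MP_fbc045_an
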